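import Pool.Agent.W209.KT.Stm
import Pool.Agent.W45.KT.COV
import Pool.Agent.W106.KT.Pig
import Pool.Agent.W188.KT.Curve
import Pool.Agent.W864.KT.M
import Pool.Agent.W849.KT.Sq
import Pool.Agent.W357.KT.CA
import Pool.Agent.W445.KT.CB0
import Pool.Agent.W410.KT.CB
import Pool.Agent.W408.KT.C
import Pool.Agent.W141.KT.VOL
import Pool.Agent.W950.KT.L
import Pool.Agent.W986.KT.Div
import Pool.Agent.W104.KT.Nd
import Pool.Agent.W40.KT.Ex

/-!
# Khintchine type is not inherited by nondegenerate submanifolds of affine subspaces: full measure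

The failure of inheritance is as complete as it can be: there are a `10`-dimensional affine subspace
`L` of `ℝ^12` of Khintchine type, a polynomial curve `γ` in `L` which is nondegenerate in `L` at
every point, and one non-increasing `ψ` with `∑ ψ(q)^12 < ∞`, such that all points `γ t`,
`1 < t < 2`, with `t` irrational are `ψ`-approximable: all but countably many, hence almost all.
-/

set_option autoImplicit false

open Filter MeasureTheory Set Topology
open scoped MeasureTheory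

namespace Pool.Agent.Results.MP_582f03_nt.FullMeasure

/-- `x` is `ψ`-approximable: `max_i ‖q x_i‖ < ψ(q)` for infinitely many `q` -/
def Approximable {n : ℕ} (ψ : ℕ → ℝ) (x : Fin n → ℝ) : Prop :=
  ∃ᶠ q : ℕ in atTop, ∀ i, |(q : ℝ) * x i - (round ((q : ℝ) * x i) : ℝ)| < ψ q

/-- Khintchine type for convergence of a `k`-dimensional `M` -/
def KhintchineConvergence {n : ℕ} (k : ℕ) (M : Set (Fin n → ℝ)) : Prop :=
  ∀ ψ : ℕ → ℝ, (∀ q, 0 ≤ ψ q) → Antitone ψ → Summable (fun q => ψ q ^ n) →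
    ∀ᵐ x ∂(μH[(k : ℝ)] : Measure (Fin n → ℝ)).restrict M, ¬ Approximable ψ x

/-- Khintchine type for divergence of a `k`-dimensional `M` -/
def KhintchineDivergence {n : ℕ} (k : ℕ) (M : Set (Fin n → ℝ)) : Prop :=
  ∀ ψ : ℕ → ℝ, (∀ q, 0 ≤ ψ q) → Antitone ψ → ¬ Summable (fun q => ψ q ^ n) →
    ∀ᵐ x ∂(μH[(k : ℝ)] : Measure (Fin n → ℝ)).restrict M, Approximable ψ x

/-- Khintchine type -/
def KhintchineType {n : ℕ} (k : ℕ) (M : Set (Fin n → ℝ)) : Prop :=
  KhintchineConvergence k M ∧ KhintchineDivergence k M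

/-- local parametrisations: smooth embeddings of open sets of `ℝ^k` -/
structure IsPatch {k n : ℕ} (f : (Fin k → ℝ) → (Fin n → ℝ)) (U : Set (Fin k → ℝ)) : Prop where
  isOpen : IsOpen U
  smooth : ContDiffOn ℝ (⊤ : ℕ∞) f U
  immersion : ∀ x ∈ U, Function.Injective (fderiv ℝ f x)
  embedding : Topology.IsEmbedding (U.domRestrict f)

/-- the partial derivatives of `f` at `u` of orders `1, ..., ℓ`, for some `ℓ`, span `V` -/
def NondegenerateAt {k n : ℕ} (f : (Fin k → ℝ) → (Fin n → ℝ)) (V : Submodule ℝ (Fin n → ℝ))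
    (u : Fin k → ℝ) : Prop :=
  ∃ ℓ : ℕ, Submodule.span ℝ {w : Fin n → ℝ | ∃ i, 1 ≤ i ∧ i ≤ ℓ ∧
    ∃ m : Fin i → (Fin k → ℝ), w = iteratedFDeriv ℝ i f u m} = V

/-- smooth `k`-dimensional submanifolds contained in `L`, nondegenerate in `L` -/
def IsNondegenerateSubmanifold {n : ℕ} (k : ℕ) (M : Set (Fin n → ℝ))
    (L : AffineSubspace ℝ (Fin n → ℝ)) : Prop :=
  M ⊆ L ∧ ∀ x ∈ M, ∃ (f : (Fin k → ℝ) → (Fin n → ℝ)) (U : Set (Fin k → ℝ)) (W : Set (Fin n → ℝ)),
    IsPatch f U ∧ IsOpen W ∧ x ∈ W ∧ f '' U = M ∩ W ∧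
    ∀ᵐ u ∂(volume : Measure (Fin k → ℝ)).restrict U, NondegenerateAt f L.direction u

open Pool.Agent.W209.KT

/-- the linear part of `pt A` -/
noncomputable def lin (A : Fin 2 → Fin 11 → ℝ) : (Fin 10 → ℝ) →ₗ[ℝ] (Fin 12 → ℝ) where
  toFun x := Fin.append x (fun j : Fin 2 => ∑ l : Fin 10, A j l.succ * x l)
  map_add' x y := by
    ext i
    refine Fin.addCases (m := 10) (n := 2) (fun i => ?_) (fun i => ?_) i
    · simp [Fin.append_left]
    · simp only [Pi.add_apply, Fin.append_right, mul_add, Finset.sum_add_distrib]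
  map_smul' c x := by
    ext i
    refine Fin.addCases (m := 10) (n := 2) (fun i => ?_) (fun i => ?_) i
    · simp [Fin.append_left]
    · simp only [Pi.smul_apply, Fin.append_right, smul_eq_mul, RingHom.id_apply, Finset.mul_sum]
      refine Finset.sum_congr rfl fun l _ => ?_
      ring

theorem pt_eq (A : Fin 2 → Fin 11 → ℝ) (x : Fin 10 → ℝ) : pt A x = pt A 0 + lin A x := by
  ext i
  refine Fin.addCases (m := 10) (n := 2) (fun i => ?_) (fun i => ?_) i
  · simp [pt, lin, Fin.append_left]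
  · simp only [pt, lin, LinearMap.coe_mk, AddHom.coe_mk, Pi.add_apply, Fin.append_right, aff,
      Pi.zero_apply, mul_zero, Finset.sum_const_zero, add_zero]

theorem pt_left (A : Fin 2 → Fin 11 → ℝ) (x : Fin 10 → ℝ) (i : Fin 10) :
    pt A x (Fin.castAdd 2 i) = x i := by
  simp [pt, Fin.append_left]

theorem lin_left (A : Fin 2 → Fin 11 → ℝ) (x : Fin 10 → ℝ) (i : Fin 10) :
    lin A x (Fin.castAdd 2 i) = x i := by
  simp [lin, Fin.append_left]

theorem lin_inj (A : Fin 2 → Fin 11 → ℝ) : Function.Injective (lin A) := by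
  intro x y h
  ext i
  have := congrFun h (Fin.castAdd 2 i)
  rwa [lin_left, lin_left] at this

/-- the affine subspace -/
noncomputable def Lsp (A : Fin 2 → Fin 11 → ℝ) : AffineSubspace ℝ (Fin 12 → ℝ) :=
  AffineSubspace.mk' (pt A 0) (LinearMap.range (lin A))

theorem coe_Lsp (A : Fin 2 → Fin 11 → ℝ) : (Lsp A : Set (Fin 12 → ℝ)) = range (pt A) := by
  ext x
  constructor
  · intro hx
    have h : x -ᵥ pt A 0 ∈ LinearMap.range (lin A) := AffineSubspace.mem_mk'.mp hx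
    obtain ⟨y, hy⟩ := h
    refine ⟨y, ?_⟩
    rw [pt_eq, hy]
    simp
  · rintro ⟨y, rfl⟩
    refine AffineSubspace.mem_mk'.mpr ?_
    refine ⟨y, ?_⟩
    rw [pt_eq A y]
    simp

theorem finrank_Lsp (A : Fin 2 → Fin 11 → ℝ) : Module.finrank ℝ (Lsp A).direction = 10 := by
  rw [Lsp, AffineSubspace.direction_mk', LinearMap.finrank_range_of_inj (lin_inj A)]
  simp

theorem span_eq (A : Fin 2 → Fin 11 → ℝ) :
    Submodule.span ℝ {w : Fin 12 → ℝ | ∃ x y, w = pt A x - pt A y} = (Lsp A).direction := by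
  rw [Lsp, AffineSubspace.direction_mk']
  refine le_antisymm (Submodule.span_le.mpr ?_) ?_
  · rintro _ ⟨x, y, rfl⟩
    refine ⟨x - y, ?_⟩
    rw [map_sub, pt_eq A x, pt_eq A y]
    simp
  · rintro _ ⟨x, rfl⟩
    refine Submodule.subset_span ⟨x, 0, ?_⟩
    rw [pt_eq A x]
    simp

/-- transfer of almost everywhere statements to the affine subspace -/
theorem ae_Lsp (A : Fin 2 → Fin 11 → ℝ) (P : (Fin 12 → ℝ) → Prop)
    (h : ∀ᵐ x : Fin 10 → ℝ, P (pt A x)) :
    ∀ᵐ x ∂(μH[((10 : ℕ) : ℝ)] : Measure (Fin 12 → ℝ)).restrict (Lsp A), P x := by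
  have hlip : ∃ K : NNReal, LipschitzWith K (pt A) := by
    obtain ⟨K, hK⟩ : ∃ K : NNReal, LipschitzWith K (lin A) :=
      ⟨_, (LinearMap.toContinuousLinearMap (lin A)).lipschitz⟩
    refine ⟨K, ?_⟩
    have : pt A = fun x => pt A 0 + lin A x := funext (pt_eq A)
    rw [this]
    intro x y
    simpa using hK x y
  obtain ⟨K, hK⟩ := hlip
  have hnull : (μH[((10 : ℕ) : ℝ)] : Measure (Fin 10 → ℝ)) {x | ¬ P (pt A x)} = 0 := by
    have h1 : (μH[((10 : ℕ) : ℝ)] : Measure (Fin 10 → ℝ)) = volume := by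
      have := hausdorffMeasure_pi_real (ι := Fin 10)
      simpa using this
    rw [h1]
    exact h
  have h2 : (μH[((10 : ℕ) : ℝ)] : Measure (Fin 12 → ℝ)) (pt A '' {x | ¬ P (pt A x)}) = 0 := by
    refine le_antisymm ?_ bot_le
    refine (hK.hausdorffMeasure_image_le (by positivity) _).trans ?_
    rw [hnull, mul_zero]
  have h3 : {x | ¬ P x} ∩ (Lsp A : Set (Fin 12 → ℝ)) ⊆ pt A '' {x | ¬ P (pt A x)} := by
    rw [coe_Lsp]
    rintro _ ⟨hx, ⟨y, rfl⟩⟩
    exact ⟨y, hx, rfl⟩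
  rw [ae_iff]
  have hm : MeasurableSet (Lsp A : Set (Fin 12 → ℝ)) := by
    exact (AffineSubspace.closed_of_finiteDimensional _).measurableSet
  rw [Measure.restrict_apply' hm]
  exact measure_mono_null h3 h2

/-- the curve -/
noncomputable def cur (A : Fin 2 → Fin 11 → ℝ) (w : Fin 1 → ℝ) : Fin 12 → ℝ := pt A (gam (w 0))

def UU : Set (Fin 1 → ℝ) := {w | 1 < w 0 ∧ w 0 < 2}

theorem cur_zero (A : Fin 2 → Fin 11 → ℝ) (t : ℝ) : pt A (gam t) 0 = t := by
  have := pt_left A (gam t) 0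
  simpa [gam] using this

theorem isOpen_UU : IsOpen UU := by
  have h : Continuous fun w : Fin 1 → ℝ => w 0 := continuous_apply 0
  exact (isOpen_lt continuous_const h).inter (isOpen_lt h continuous_const)

/-- evaluation at `0` as a continuous linear map -/
noncomputable def ev0 : (Fin 1 → ℝ) →L[ℝ] ℝ := ContinuousLinearMap.proj 0

theorem cur_eq (A : Fin 2 → Fin 11 → ℝ) : cur A = (fun t => pt A (gam t)) ∘ ev0 := rfl

theorem isPatch_cur (hnd : S_nd) (A : Fin 2 → Fin 11 → ℝ) : IsPatch (cur A) UU := by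
  have hc := (hnd A).1
  have hcur : ContDiff ℝ (⊤ : ℕ∞) (cur A) := by
    rw [cur_eq]
    exact hc.comp ev0.contDiff
  refine ⟨isOpen_UU, hcur.contDiffOn, ?_, ?_⟩
  · intro x _
    rw [injective_iff_map_eq_zero]
    intro w hw
    have hd : HasFDerivAt (cur A) (fderiv ℝ (cur A) x) x :=
      ((hcur.differentiable (by simp)) x).hasFDerivAt
    have h0 : HasFDerivAt (fun y => cur A y 0)
        ((ContinuousLinearMap.proj (R := ℝ) (φ := fun _ : Fin 12 => ℝ) 0).comp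
          (fderiv ℝ (cur A) x)) x :=
      (ContinuousLinearMap.proj (R := ℝ) (φ := fun _ : Fin 12 => ℝ) 0).hasFDerivAt.comp x hd
    have h1 : (fun y => cur A y 0) = ev0 := by
      funext y
      exact cur_zero A (y 0)
    rw [h1] at h0
    have h2 := h0.unique ev0.hasFDerivAt
    have h3 := congrArg (fun φ => φ w) h2
    simp only [ContinuousLinearMap.comp_apply, hw, map_zero] at h3
    ext i
    have : i = 0 := Subsingleton.elim _ _
    subst this
    exact h3.symm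
  · have hcont : Continuous (UU.domRestrict (cur A)) := by
      exact (hcur.continuous).comp continuous_subtype_val
    have hinv : Continuous fun y : Fin 12 → ℝ => (fun _ : Fin 1 => y 0) := by fun_prop
    have hemb : Topology.IsEmbedding (cur A) := by
      refine Topology.IsEmbedding.of_leftInverse (f := fun y : Fin 12 → ℝ => (fun _ : Fin 1 => y 0))
        ?_ hinv hcur.continuous
      intro w
      ext i
      have : i = 0 := Subsingleton.elim _ _
      subst this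
      exact cur_zero A (w 0)
    exact hemb.comp Topology.IsEmbedding.subtypeVal

theorem nondeg (hnd : S_nd) (A : Fin 2 → Fin 11 → ℝ) (u : Fin 1 → ℝ) :
    NondegenerateAt (cur A) (Lsp A).direction u := by
  refine ⟨10, ?_⟩
  rw [← span_eq, ← (hnd A).2 (u 0)]
  have hc := (hnd A).1
  have key : ∀ (i : ℕ) (m : Fin i → (Fin 1 → ℝ)), iteratedFDeriv ℝ i (cur A) u m =
      (∏ j, m j 0) • iteratedDeriv i (fun t => pt A (gam t)) (u 0) := by
    intro i m
    rw [cur_eq, ContinuousLinearMap.iteratedFDeriv_comp_right ev0 hc u (i := i)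
      (by exact_mod_cast le_top)]
    rw [ContinuousMultilinearMap.compContinuousLinearMap_apply]
    rw [iteratedFDeriv_apply_eq_iteratedDeriv_mul_prod]
    rfl
  refine le_antisymm (Submodule.span_le.mpr ?_) (Submodule.span_le.mpr ?_)
  · rintro _ ⟨i, hi1, hi2, m, rfl⟩
    rw [key]
    exact Submodule.smul_mem _ _ (Submodule.subset_span ⟨i, hi1, hi2, rfl⟩)
  · rintro _ ⟨i, hi1, hi2, rfl⟩
    refine Submodule.subset_span ⟨i, hi1, hi2, fun _ _ => 1, ?_⟩
    rw [key]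
    simp

theorem submanifold (hnd : S_nd) (A : Fin 2 → Fin 11 → ℝ) :
    IsNondegenerateSubmanifold 1 (cur A '' UU) (Lsp A) := by
  refine ⟨?_, ?_⟩
  · rw [coe_Lsp]
    rintro _ ⟨w, _, rfl⟩
    exact ⟨_, rfl⟩
  · intro x hx
    refine ⟨cur A, UU, univ, isPatch_cur hnd A, isOpen_univ, mem_univ _, by rw [inter_univ], ?_⟩
    exact Filter.Eventually.of_forall fun u => nondeg hnd A u

theorem not_conv (A : Fin 2 → Fin 11 → ℝ) (ψ : ℕ → ℝ)
    (hψ : ∀ t : ℝ, 1 ≤ t → t ≤ 2 → Irrational t → Appr ψ (pt A (gam t))) :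
    ¬ ∀ᵐ x ∂(μH[((1 : ℕ) : ℝ)] : Measure (Fin 12 → ℝ)).restrict (cur A '' UU),
      ¬ Approximable ψ x := by
  intro hcon
  rw [ae_iff] at hcon
  have hS : (μH[((1 : ℕ) : ℝ)] : Measure (Fin 12 → ℝ))
      ({x | ¬ ¬ Approximable ψ x} ∩ (cur A '' UU)) = 0 := by
    refine le_antisymm ?_ bot_le
    refine (Measure.le_restrict_apply _ _).trans ?_
    rw [hcon]
  have hlip : LipschitzWith 1 (fun y : Fin 12 → ℝ => y 0) := LipschitzWith.eval 0
  have h1 : (μH[((1 : ℕ) : ℝ)] : Measure ℝ)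
      ((fun y : Fin 12 → ℝ => y 0) '' ({x | ¬ ¬ Approximable ψ x} ∩ (cur A '' UU))) = 0 := by
    refine le_antisymm ?_ bot_le
    refine (hlip.hausdorffMeasure_image_le (by positivity) _).trans ?_
    rw [hS, mul_zero]
  have h2 : (volume : Measure ℝ)
      ((fun y : Fin 12 → ℝ => y 0) '' ({x | ¬ ¬ Approximable ψ x} ∩ (cur A '' UU))) = 0 := by
    rw [← hausdorffMeasure_real]
    simpa using h1
  have h3 : Ioo (1 : ℝ) 2 ⊆ ((fun y : Fin 12 → ℝ => y 0) ''
      ({x | ¬ ¬ Approximable ψ x} ∩ (cur A '' UU))) ∪ range ((↑) : ℚ → ℝ) := by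
    intro t ht
    by_cases hirr : Irrational t
    · left
      refine ⟨pt A (gam t), ⟨?_, ⟨fun _ => t, ⟨ht.1, ht.2⟩, rfl⟩⟩, cur_zero A t⟩
      exact not_not.mpr (hψ t ht.1.le ht.2.le hirr)
    · right
      exact not_not.mp hirr
  have h4 : (volume : Measure ℝ) (Ioo (1 : ℝ) 2) = 0 := by
    refine measure_mono_null h3 (measure_union_null h2 ?_)
    exact (countable_range _).measure_zero _
  rw [Real.volume_Ioo] at h4
  norm_num at h4

/-- the parametrised curve -/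
noncomputable def gc (A : Fin 2 → Fin 11 → ℝ) (t : ℝ) : Fin 12 → ℝ := pt A (gam t)

theorem gc_image (A : Fin 2 → Fin 11 → ℝ) : gc A '' Ioo 1 2 = cur A '' UU := by
  ext x
  constructor
  · rintro ⟨t, ht, rfl⟩
    exact ⟨fun _ => t, ⟨ht.1, ht.2⟩, rfl⟩
  · rintro ⟨w, hw, rfl⟩
    exact ⟨w 0, ⟨hw.1, hw.2⟩, rfl⟩

theorem gc_poly (A : Fin 2 → Fin 11 → ℝ) (i : Fin 12) :
    ∃ P : Polynomial ℝ, ∀ t, gc A t i = P.eval t := by
  refine Fin.addCases (m := 10) (n := 2) (fun i => ?_) (fun i => ?_) i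
  · refine ⟨Polynomial.X ^ (i.1 + 1), fun t => ?_⟩
    simp [gc, pt, gam, Fin.append_left]
  · refine ⟨Polynomial.C (A i 0) +
      ∑ l : Fin 10, Polynomial.C (A i l.succ) * Polynomial.X ^ (l.1 + 1), fun t => ?_⟩
    simp only [gc, pt, Fin.append_right, aff, gam, Polynomial.eval_add, Polynomial.eval_C,
      Polynomial.eval_finsetSum, Polynomial.eval_mul, Polynomial.eval_pow, Polynomial.eval_X]

theorem bad_countable (A : Fin 2 → Fin 11 → ℝ) (ψ : ℕ → ℝ)
    (hψ : ∀ t : ℝ, 1 ≤ t → t ≤ 2 → Irrational t → Appr ψ (pt A (gam t))) :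
    {x | x ∈ gc A '' Ioo 1 2 ∧ ¬ Approximable ψ x}.Countable := by
  have h : {x | x ∈ gc A '' Ioo 1 2 ∧ ¬ Approximable ψ x} ⊆ gc A '' range ((↑) : ℚ → ℝ) := by
    rintro _ ⟨⟨t, ht, rfl⟩, hn⟩
    refine ⟨t, ?_, rfl⟩
    by_contra hr
    exact hn (hψ t ht.1.le ht.2.le hr)
  exact ((countable_range _).image _).mono h

theorem ae_appr (A : Fin 2 → Fin 11 → ℝ) (ψ : ℕ → ℝ)
    (hψ : ∀ t : ℝ, 1 ≤ t → t ≤ 2 → Irrational t → Appr ψ (pt A (gam t))) :
    ∀ᵐ x ∂(μH[((1 : ℕ) : ℝ)] : Measure (Fin 12 → ℝ)).restrict (gc A '' Ioo 1 2),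
      Approximable ψ x := by
  have hc := bad_countable A ψ hψ
  haveI hna : NullSingletonClass (μH[((1 : ℕ) : ℝ)] : Measure (Fin 12 → ℝ)) :=
    Measure.nullSingletonClass_hausdorff _ (by norm_num)
  have hcont : Continuous (gc A) := by
    have h1 : ∀ i, Continuous fun t => gc A t i := by
      intro i
      obtain ⟨P, hP⟩ := gc_poly A i
      simp only [hP]
      exact P.continuous
    exact continuous_pi h1
  have hm : MeasurableSet (gc A '' Ioo 1 2) := by
    have h1 : gc A '' Ioo 1 2 = gc A '' Icc 1 2 ∩ {x | 1 < x 0 ∧ x 0 < 2} := by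
      ext x
      constructor
      · rintro ⟨t, ht, rfl⟩
        have h0 : gc A t 0 = t := cur_zero A t
        exact ⟨⟨t, ⟨ht.1.le, ht.2.le⟩, rfl⟩, by simp only [mem_ofPred_eq]; rw [h0]; exact ht⟩
      · rintro ⟨⟨t, ht, rfl⟩, hx⟩
        have h0 : gc A t 0 = t := cur_zero A t
        simp only [mem_ofPred_eq] at hx
        rw [h0] at hx
        exact ⟨t, hx, rfl⟩
    rw [h1]
    refine (isCompact_Icc.image hcont).measurableSet.inter ?_
    have h2 : Continuous fun x : Fin 12 → ℝ => x 0 := continuous_apply 0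
    exact ((isOpen_lt continuous_const h2).inter (isOpen_lt h2 continuous_const)).measurableSet
  rw [ae_iff, Measure.restrict_apply' hm]
  have h3 : {x | ¬ Approximable ψ x} ∩ gc A '' Ioo 1 2
      = {x | x ∈ gc A '' Ioo 1 2 ∧ ¬ Approximable ψ x} := by
    ext x
    constructor
    · rintro ⟨h1, h2⟩; exact ⟨h2, h1⟩
    · rintro ⟨h1, h2⟩; exact ⟨h2, h1⟩
  rw [h3]
  exact hc.measure_zero _

theorem main (hex : S_ex) (hM : S_M) (hCA : S_CA) (hCB : S_CB) (hC : S_C) (hvol : S_vol)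
    (hL : S_L) (hdiv : S_div) (hnd : S_nd) :
    ∃ (L : AffineSubspace ℝ (Fin 12 → ℝ)) (γ : ℝ → Fin 12 → ℝ) (ψ : ℕ → ℝ),
      Module.finrank ℝ L.direction = 10 ∧ KhintchineType 10 (L : Set (Fin 12 → ℝ)) ∧
      (∀ i, ∃ P : Polynomial ℝ, ∀ t, γ t i = P.eval t) ∧ (∀ t, γ t 0 = t) ∧ (∀ t, γ t ∈ L) ∧
      (∀ u : Fin 1 → ℝ, NondegenerateAt (fun w : Fin 1 → ℝ => γ (w 0)) L.direction u) ∧
      IsNondegenerateSubmanifold 1 (γ '' Ioo 1 2) L ∧
      (∀ q, 0 ≤ ψ q) ∧ Antitone ψ ∧ Summable (fun q => ψ q ^ 12) ∧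
      (∀ t : ℝ, 1 ≤ t → t ≤ 2 → Irrational t → Approximable ψ (γ t)) ∧
      {x | x ∈ γ '' Ioo 1 2 ∧ ¬ Approximable ψ x}.Countable ∧
      (∀ᵐ x ∂(μH[((1 : ℕ) : ℝ)] : Measure (Fin 12 → ℝ)).restrict (γ '' Ioo 1 2),
        Approximable ψ x) ∧
      ¬ KhintchineConvergence 1 (γ '' Ioo 1 2) := by
  obtain ⟨A, s, hA⟩ := hex
  obtain ⟨ψ, hψ0, hψa, hψs, hψ⟩ := hM A s hA
  refine ⟨Lsp A, gc A, ψ, finrank_Lsp A, ⟨?_, ?_⟩, gc_poly A, cur_zero A, ?_, nondeg hnd A, ?_, hψ0,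
    hψa, hψs, hψ, bad_countable A ψ hψ, ae_appr A ψ hψ, ?_⟩
  · intro φ h0 ha hs
    exact ae_Lsp A (fun x => ¬ Approximable φ x)
      (hL hvol A hA.bd (hC hCA hCB A s hA) φ h0 ha hs)
  · intro φ h0 ha hs
    exact ae_Lsp A (fun x => Approximable φ x) (hdiv A φ h0 ha hs)
  · intro t
    have h : gc A t ∈ (Lsp A : Set (Fin 12 → ℝ)) := by
      rw [coe_Lsp]
      exact ⟨_, rfl⟩
    exact h
  · rw [gc_image]
    exact submanifold hnd A
  · intro hcon
    rw [gc_image] at hcon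
    exact not_conv A ψ hψ (hcon ψ hψ0 hψa hψs)

/-- There are a `10`-dimensional affine subspace `L` of `ℝ^12` of Khintchine type, a polynomial curve
`γ` in `L` (with first coordinate `t`), nondegenerate in `L` at every point, and one non-increasing
`ψ ≥ 0` with `∑ ψ(q)^12 < ∞`, such that `γ t` is `ψ`-approximable for every irrational `t` of
`[1, 2]`; so all but countably many, and hence almost all, points of the submanifold `γ((1, 2))` are
`ψ`-approximable, and it is not of Khintchine type. In particular Khintchine type is not inherited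
by nondegenerate submanifolds. -/
theorem result :
    (∃ (L : AffineSubspace ℝ (Fin 12 → ℝ)) (γ : ℝ → Fin 12 → ℝ) (ψ : ℕ → ℝ),
      Module.finrank ℝ L.direction = 10 ∧ KhintchineType 10 (L : Set (Fin 12 → ℝ)) ∧
      (∀ i, ∃ P : Polynomial ℝ, ∀ t, γ t i = P.eval t) ∧ (∀ t, γ t 0 = t) ∧ (∀ t, γ t ∈ L) ∧
      (∀ u : Fin 1 → ℝ, NondegenerateAt (fun w : Fin 1 → ℝ => γ (w 0)) L.direction u) ∧
      IsNondegenerateSubmanifold 1 (γ '' Ioo 1 2) L ∧
      (∀ q, 0 ≤ ψ q) ∧ Antitone ψ ∧ Summable (fun q => ψ q ^ 12) ∧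
      (∀ t : ℝ, 1 ≤ t → t ≤ 2 → Irrational t → Approximable ψ (γ t)) ∧
      {x | x ∈ γ '' Ioo 1 2 ∧ ¬ Approximable ψ x}.Countable ∧
      (∀ᵐ x ∂(μH[((1 : ℕ) : ℝ)] : Measure (Fin 12 → ℝ)).restrict (γ '' Ioo 1 2),
        Approximable ψ x) ∧
      ¬ KhintchineConvergence 1 (γ '' Ioo 1 2)) ∧
    ¬ ∀ n : ℕ, 2 ≤ n → ∀ L : AffineSubspace ℝ (Fin n → ℝ),
      (KhintchineType (Module.finrank ℝ L.direction) (L : Set (Fin n → ℝ)) ↔
        ∀ (k : ℕ) (M : Set (Fin n → ℝ)), IsNondegenerateSubmanifold k M L →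
          KhintchineType k M) := by
  have hcov := Pool.Agent.W45.KT.cov
  have hcurve := Pool.Agent.W188.KT.curve Pool.Agent.W106.KT.pig hcov
  have h := main (Pool.Agent.W40.KT.ex hcov) (Pool.Agent.W864.KT.M hcov hcurve)
      (Pool.Agent.W357.KT.CA hcov)
      (Pool.Agent.W410.KT.CB.CB (Pool.Agent.W445.KT.CB0 hcov Pool.Agent.W849.KT.sq))
      Pool.Agent.W408.KT.C Pool.Agent.W141.KT.vol Pool.Agent.W950.KT.L Pool.Agent.W986.KT.div
      Pool.Agent.W104.KT.nd
  refine ⟨h, fun hall => ?_⟩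
  obtain ⟨L, γ, ψ, hL, hK, -, -, -, -, hM, -, -, -, -, -, -, hcon⟩ := h
  have h1 := (hall 12 (by norm_num) L).mp (by rw [hL]; exact hK) 1 _ hM
  exact hcon h1.1

end Pool.Agent.Results.MP_582f03_nt.FullMeasure
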